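import Pool.Agent.H84.GS.Bas
import Pool.Agent.H72.GS2.Targets

/-!
# Theorem (G), section 2: dilation (row DLG)
-/

set_option autoImplicit false

namespace Pool.Agent.H87.GS2.D

open Finset Pool.Agent.H6.N4D Pool.Agent.H93.GS Pool.Agent.H84.GS
open Pool.Agent.H93 (EB.lg)

/-- multiples in a window -/
lemma sum_mult (q N n : ℕ) (hq : 1 ≤ q) (F : ℕ → ℝ) :
    ∑ m ∈ (Ioc n (n + N)).filter (fun m => q ∣ m), F m =
      ∑ m ∈ Ioc (n / q) ((n + N) / q), F (q * m) := by
  have himg : (Ioc n (n + N)).filter (fun m => q ∣ m) =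
      (Ioc (n / q) ((n + N) / q)).image (fun m => q * m) := by
    ext m
    rw [mem_filter, mem_Ioc, mem_image]
    constructor
    · rintro ⟨⟨h1, h2⟩, c, rfl⟩
      refine ⟨c, ?_, rfl⟩
      rw [mem_Ioc]
      refine ⟨(Nat.div_lt_iff_lt_mul (by omega)).mpr (by rw [mul_comm]; exact h1), ?_⟩
      exact (Nat.le_div_iff_mul_le (by omega)).mpr (by rw [mul_comm]; exact h2)
    · rintro ⟨c, hc, rfl⟩
      rw [mem_Ioc] at hc
      refine ⟨⟨?_, ?_⟩, Dvd.intro _ rfl⟩
      · have := (Nat.div_lt_iff_lt_mul (k := q) (by omega)).mp hc.1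
        rw [mul_comm]; exact this
      · have := (Nat.le_div_iff_mul_le (k := q) (by omega)).mp hc.2
        rw [mul_comm]; exact this
  rw [himg, sum_image]
  intro x _ y _ hxy
  exact Nat.eq_of_mul_eq_mul_left (by omega) hxy

lemma norm_f_le (g : Ex) (m : ℕ) : ‖g.f m‖ ≤ g.nm := by
  unfold Ex.f Ex.nm
  refine (norm_sum_le _ _).trans (Finset.sum_le_sum fun i _ => ?_)
  rw [norm_mul, norm_ee, mul_one]

/-- the two functionals are close -/
lemma J_dil (th : ℝ) (lam : ℕ → ℝ) (q H n : ℕ) (hl : Lio lam) (hq : q.Prime) (hqH : q ≤ H)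
    (g h : Ex) (hf : ∀ m : ℕ, h.f m = - g.f (q * m)) (hnm : h.nm = g.nm) (A : ℝ)
    (hA : g.nm ≤ A) :
    |J th lam q H n g - J th lam 1 (H / q) (n / q) h| ≤
      2 * (2 * A + A ^ 2) * ((q : ℝ) / H) := by
  have hq1 : 1 ≤ q := hq.one_lt.le
  have hq0 : (0 : ℝ) < q := by exact_mod_cast hq1
  have hH0 : (0 : ℝ) < H := by exact_mod_cast (by omega : 0 < H)
  have hA0 : 0 ≤ A := (nm_nonneg g).trans hA
  set N := H / q with hN
  have hN1 : 1 ≤ N := (Nat.one_le_div_iff (by omega)).2 hqH
  have hN0 : (0 : ℝ) < N := by exact_mod_cast hN1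
  set n' := n / q with hn'
  set T : ℕ → ℝ := fun m => 2 * lam m * (h.f m).re - ‖h.f m‖ ^ 2 with hT
  have hTb : ∀ m, |T m| ≤ 2 * A + A ^ 2 := by
    intro m
    have h1 : ‖h.f m‖ ≤ A := (norm_f_le h m).trans (by rw [hnm]; exact hA)
    have h2 : |(h.f m).re| ≤ A := (Complex.abs_re_le_norm _).trans h1
    have h3 : |lam m| = 1 := by
      rcases hl.pm m with h | h <;> rw [h] <;> simp
    calc |T m| ≤ |2 * lam m * (h.f m).re| + |‖h.f m‖ ^ 2| := abs_sub _ _
      _ = 2 * |(h.f m).re| + ‖h.f m‖ ^ 2 := by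
          rw [abs_mul, abs_mul, h3, abs_of_nonneg (sq_nonneg ‖h.f m‖)]
          norm_num
      _ ≤ 2 * A + A ^ 2 := by
          have := pow_le_pow_left₀ (norm_nonneg (h.f m)) h1 2
          linarith
  have hJ1 : J th lam q H n g = (∑ m ∈ Ioc n' ((n + H) / q), T m) * q / H - 2 * th * h.nm := by
    unfold J ar
    rw [sum_mult q H n hq1, hnm]
    congr 3
    refine Finset.sum_congr rfl fun m hm => ?_
    have hm1 : 1 ≤ m := Nat.succ_le_of_lt (lt_of_le_of_lt (Nat.zero_le _) (mem_Ioc.1 hm).1)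
    rw [hT]
    simp only
    rw [hl.pr q m hq hm1, hf m, norm_neg, Complex.neg_re]
    ring
  have hJ2 : J th lam 1 N n' h = (∑ m ∈ Ioc n' (n' + N), T m) / N - 2 * th * h.nm := by
    unfold J ar
    have : (Ioc n' (n' + N)).filter (fun m => 1 ∣ m) = Ioc n' (n' + N) := by
      apply filter_true_of_mem
      intro m _
      exact one_dvd m
    rw [this]
    push_cast
    rw [mul_one]
  have hend : n' + N ≤ (n + H) / q ∧ (n + H) / q ≤ n' + N + 1 := by
    have e1 := Nat.div_add_mod n q
    have e2 := Nat.div_add_mod H q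
    have r1 := Nat.mod_lt n (by omega : 0 < q)
    have r2 := Nat.mod_lt H (by omega : 0 < q)
    constructor
    · rw [Nat.le_div_iff_mul_le (by omega)]
      calc (n' + N) * q = q * n' + q * N := by ring
        _ ≤ n + H := by
          rw [hn', hN]
          omega
    · rw [Nat.div_le_iff_le_mul_add_pred (by omega)]
      have : q * (n' + N + 1) = q * n' + q * N + q := by ring
      rw [this, hn', hN]
      omega
  have hS2 : |∑ m ∈ Ioc n' (n' + N), T m| ≤ N * (2 * A + A ^ 2) := by
    refine (Finset.abs_sum_le_sum_abs _ _).trans ((Finset.sum_le_sum fun m _ => hTb m).trans ?_)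
    rw [Finset.sum_const, Nat.card_Ioc, nsmul_eq_mul]
    simp
  have hS1 : |(∑ m ∈ Ioc n' ((n + H) / q), T m) - ∑ m ∈ Ioc n' (n' + N), T m| ≤
      2 * A + A ^ 2 := by
    rcases (by omega : (n + H) / q = n' + N ∨ (n + H) / q = n' + N + 1) with h1 | h1
    · rw [h1, sub_self, abs_zero]
      positivity
    · rw [h1, Finset.sum_Ioc_succ_top (by omega)]
      rw [add_sub_cancel_left]
      exact hTb _
  have hB0 : 0 ≤ 2 * A + A ^ 2 := by positivity
  have hqN : |(q : ℝ) / H - 1 / N| ≤ q / (H * N) := by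
    have e2 := Nat.div_add_mod H q
    have r2 := Nat.mod_lt H (by omega : 0 < q)
    have e3 : (q : ℝ) * N + (H % q : ℕ) = H := by exact_mod_cast e2
    have e4 : ((H % q : ℕ) : ℝ) < q := by exact_mod_cast r2
    have e5 : (0 : ℝ) ≤ ((H % q : ℕ) : ℝ) := Nat.cast_nonneg _
    have e6 : (q : ℝ) / H - 1 / N = -(((H % q : ℕ) : ℝ) / (H * N)) := by
      rw [div_sub_div _ _ hH0.ne' hN0.ne', ← neg_div]
      congr 1
      linarith
    rw [e6, abs_neg, abs_of_nonneg (by positivity)]
    exact div_le_div_of_nonneg_right e4.le (by positivity)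
  rw [hJ1, hJ2]
  have e : (∑ m ∈ Ioc n' ((n + H) / q), T m) * q / H - 2 * th * h.nm -
      ((∑ m ∈ Ioc n' (n' + N), T m) / N - 2 * th * h.nm) =
      ((∑ m ∈ Ioc n' ((n + H) / q), T m) - ∑ m ∈ Ioc n' (n' + N), T m) * ((q : ℝ) / H) +
        (∑ m ∈ Ioc n' (n' + N), T m) * ((q : ℝ) / H - 1 / N) := by ring
  rw [e]
  refine (abs_add_le _ _).trans ?_
  rw [abs_mul, abs_mul, abs_of_nonneg (by positivity : (0 : ℝ) ≤ (q : ℝ) / H)]
  have h1 : |(∑ m ∈ Ioc n' ((n + H) / q), T m) - ∑ m ∈ Ioc n' (n' + N), T m| * ((q : ℝ) / H) ≤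
      (2 * A + A ^ 2) * ((q : ℝ) / H) := mul_le_mul_of_nonneg_right hS1 (by positivity)
  have h2 : |∑ m ∈ Ioc n' (n' + N), T m| * |(q : ℝ) / H - 1 / N| ≤
      (N * (2 * A + A ^ 2)) * (q / (H * N)) :=
    mul_le_mul hS2 hqN (abs_nonneg _) (by positivity)
  have h3 : (N * (2 * A + A ^ 2)) * ((q : ℝ) / (H * N)) = (2 * A + A ^ 2) * ((q : ℝ) / H) := by
    field_simp
  linarith

/-- the energy of the multiples of `q` is the energy of a shorter window -/
lemma En_dil (th : ℝ) (lam : ℕ → ℝ) (q H n : ℕ) (hth : 0 < th) (hl : Lio lam) (hq : q.Prime)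
    (hqH : q ≤ H) :
    |En th lam q H n - En th lam 1 (H / q) (n / q)| ≤
      2 * (2 * (1 / th) + (1 / th) ^ 2) * ((q : ℝ) / H) := by
  have hq1 : 1 ≤ q := hq.one_lt.le
  have hq0 : (0 : ℝ) < q := by exact_mod_cast hq1
  have hH0 : (0 : ℝ) < H := by exact_mod_cast (by omega : 0 < H)
  have hN1 : 1 ≤ H / q := (Nat.one_le_div_iff (by omega)).2 hqH
  have hlam : ∀ m, |lam m| ≤ 1 := by
    intro m
    rcases hl.pm m with h | h <;> rw [h] <;> simp
  have hne : Nonempty Ex := ⟨⟨0, fun _ => 0, fun _ => 0⟩⟩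
  set B : ℝ := 2 * (2 * (1 / th) + (1 / th) ^ 2) * ((q : ℝ) / H) with hB
  have hB0 : 0 ≤ B := by positivity
  have hnm : ∀ (q' N' n'' : ℕ) (g : Ex), 1 ≤ q' → q' ≤ N' → 0 ≤ J th lam q' N' n'' g →
      g.nm ≤ 1 / th := by
    intro q' N' n'' g h1 h2 h3
    have h4 : ar q' N' n'' (fun m => 2 * lam m * (g.f m).re - ‖g.f m‖ ^ 2) ≤ 2 := by
      refine ar_le q' N' n'' _ h1 h2 fun m => ?_
      have h2 : (g.f m).re ^ 2 ≤ ‖g.f m‖ ^ 2 := by
        rw [← Complex.normSq_eq_norm_sq, Complex.normSq_apply]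
        nlinarith [sq_nonneg (g.f m).im]
      have h3 : lam m ^ 2 ≤ 1 := by
        rw [← sq_abs]
        have := hlam m
        have := abs_nonneg (lam m)
        nlinarith
      nlinarith [sq_nonneg (lam m - (g.f m).re)]
    unfold J at h3
    rw [le_div_iff₀ hth]
    nlinarith
  rw [abs_le]
  constructor
  · -- lower bound
    have : En th lam 1 (H / q) (n / q) ≤ En th lam q H n + B := by
      refine ciSup_le fun h => ?_
      by_cases h0 : 0 ≤ J th lam 1 (H / q) (n / q) h
      · set g : Ex := ⟨h.k, fun i => - h.c i, fun i => h.a i / q⟩ with hg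
        have hf : ∀ m : ℕ, h.f m = - g.f (q * m) := by
          intro m
          unfold Ex.f
          rw [← Finset.sum_neg_distrib]
          refine Finset.sum_congr rfl fun i _ => ?_
          rw [hg]
          simp only
          push_cast
          rw [show h.a i / q * ((q : ℝ) * m) = h.a i * m by field_simp]
          ring
        have hn : h.nm = g.nm := by
          unfold Ex.nm
          rw [hg]
          simp
        have h1 := J_dil th lam q H n hl hq hqH g h hf hn (1 / th)
          (by rw [← hn]; exact hnm 1 _ _ h le_rfl hN1 h0)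
        have h2 := J_le_En th lam q H n g hth hq1 hqH hlam
        have h3 := (abs_le.1 h1).1
        linarith
      · have h2 := En_nonneg th lam q H n hth hq1 hqH hlam
        push Not at h0
        linarith
    linarith
  · have : En th lam q H n ≤ En th lam 1 (H / q) (n / q) + B := by
      refine ciSup_le fun g => ?_
      by_cases h0 : 0 ≤ J th lam q H n g
      · set h : Ex := ⟨g.k, fun i => - g.c i, fun i => q * g.a i⟩ with hh
        have hf : ∀ m : ℕ, h.f m = - g.f (q * m) := by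
          intro m
          unfold Ex.f
          rw [← Finset.sum_neg_distrib]
          refine Finset.sum_congr rfl fun i _ => ?_
          rw [hh]
          simp only
          push_cast
          rw [show (q : ℝ) * g.a i * m = g.a i * ((q : ℝ) * m) by ring]
          ring
        have hn : h.nm = g.nm := by
          unfold Ex.nm
          rw [hh]
          simp
        have h1 := J_dil th lam q H n hl hq hqH g h hf hn (1 / th) (hnm q _ _ g hq1 hqH h0)
        have h2 := J_le_En th lam 1 (H / q) (n / q) h hth le_rfl hN1 hlam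
        have h3 := (abs_le.1 h1).2
        linarith
      · have h2 := En_nonneg th lam 1 (H / q) (n / q) hth le_rfl hN1 hlam
        push Not at h0
        linarith
    linarith

/-! ## logarithmic sums -/

lemma fib_le (X q k : ℕ) (hq : 1 ≤ q) (hk : 1 ≤ k) :
    ∑ n ∈ (Icc 1 X).filter (fun n => n / q = k), 1 / (n : ℝ) ≤ 1 / k := by
  have hq0 : (0 : ℝ) < q := by exact_mod_cast hq
  have hk0 : (0 : ℝ) < k := by exact_mod_cast hk
  have hsub : (Icc 1 X).filter (fun n => n / q = k) ⊆ Ico (q * k) (q * k + q) := by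
    intro n hn
    rw [mem_filter] at hn
    rw [mem_Ico]
    have e1 := Nat.div_add_mod n q
    have r1 := Nat.mod_lt n (by omega : 0 < q)
    rw [hn.2] at e1
    omega
  calc ∑ n ∈ (Icc 1 X).filter (fun n => n / q = k), 1 / (n : ℝ)
      ≤ ∑ n ∈ Ico (q * k) (q * k + q), 1 / (n : ℝ) :=
        Finset.sum_le_sum_of_subset_of_nonneg hsub fun n _ _ => by positivity
    _ ≤ ∑ n ∈ Ico (q * k) (q * k + q), 1 / ((q : ℝ) * k) := by
        refine Finset.sum_le_sum fun n hn => ?_
        rw [mem_Ico] at hn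
        apply one_div_le_one_div_of_le (by positivity)
        exact_mod_cast hn.1
    _ = 1 / k := by
        rw [Finset.sum_const, Nat.card_Ico, nsmul_eq_mul]
        have : q * k + q - q * k = q := by omega
        rw [this]
        field_simp

lemma fib_ge (X q k : ℕ) (hq : 1 ≤ q) (hk : 1 ≤ k) (hkX : k < X / q) :
    1 / ((k : ℝ) + 1) ≤ ∑ n ∈ (Icc 1 X).filter (fun n => n / q = k), 1 / (n : ℝ) := by
  have hq0 : (0 : ℝ) < q := by exact_mod_cast hq
  have hk0 : (0 : ℝ) < k := by exact_mod_cast hk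
  have hqk : 1 ≤ q * k := Nat.mul_pos (by omega) (by omega)
  have hX : q * k + q ≤ X := by
    have h1 : (k + 1) * q ≤ X := (Nat.le_div_iff_mul_le (by omega)).1 (by omega)
    calc q * k + q = (k + 1) * q := by ring
      _ ≤ X := h1
  have hsub : Ico (q * k) (q * k + q) ⊆ (Icc 1 X).filter (fun n => n / q = k) := by
    intro n hn
    rw [mem_Ico] at hn
    rw [mem_filter, mem_Icc]
    refine ⟨⟨by omega, by omega⟩, ?_⟩
    rw [Nat.div_eq_iff (by omega)]
    constructor
    · rw [mul_comm]; exact hn.1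
    · have : k * q = q * k := mul_comm _ _
      omega
  calc 1 / ((k : ℝ) + 1) = ∑ n ∈ Ico (q * k) (q * k + q), 1 / ((q : ℝ) * (k + 1)) := by
        rw [Finset.sum_const, Nat.card_Ico, nsmul_eq_mul]
        have : q * k + q - q * k = q := by omega
        rw [this]
        field_simp
    _ ≤ ∑ n ∈ Ico (q * k) (q * k + q), 1 / (n : ℝ) := by
        refine Finset.sum_le_sum fun n hn => ?_
        rw [mem_Ico] at hn
        have h0 : 0 < n := by omega
        apply one_div_le_one_div_of_le (by exact_mod_cast h0)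
        have : n ≤ q * (k + 1) := by
          have : q * (k + 1) = q * k + q := by ring
          omega
        exact_mod_cast this
    _ ≤ _ := Finset.sum_le_sum_of_subset_of_nonneg hsub fun n _ _ => by positivity

lemma fib_zero (X q : ℕ) (hq : 1 ≤ q) :
    ∑ n ∈ (Icc 1 X).filter (fun n => n / q = 0), 1 / (n : ℝ) ≤ 1 + Real.log q := by
  have hsub : (Icc 1 X).filter (fun n => n / q = 0) ⊆ Icc 1 q := by
    intro n hn
    rw [mem_filter, mem_Icc] at hn
    rw [mem_Icc]
    have := (Nat.div_eq_zero_iff_lt (by omega)).1 hn.2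
    omega
  exact (Finset.sum_le_sum_of_subset_of_nonneg hsub fun n _ _ => by positivity).trans
    (hs_le q hq)

lemma lg_fib (X q : ℕ) (f : ℕ → ℝ) :
    EB.lg X (fun n => f (n / q)) = ∑ k ∈ range (X / q + 1),
      f k * ∑ n ∈ (Icc 1 X).filter (fun n => n / q = k), 1 / (n : ℝ) := by
  unfold Pool.Agent.H93.EB.lg
  rw [← Finset.sum_fiberwise_of_maps_to (s := Icc 1 X) (t := range (X / q + 1))
    (g := fun n => n / q)]
  · refine Finset.sum_congr rfl fun k _ => ?_
    rw [Finset.mul_sum]
    refine Finset.sum_congr rfl fun n hn => ?_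
    show f (n / q) / (n : ℝ) = f k * (1 / (n : ℝ))
    rw [(mem_filter.1 hn).2]
    ring
  · intro n hn
    rw [mem_range]
    exact Nat.lt_succ_of_le (Nat.div_le_div_right (mem_Icc.1 hn).2)

lemma tel_one (M : ℕ) : ∑ k ∈ Ico 1 M, (1 / (k : ℝ) - 1 / ((k : ℝ) + 1)) ≤ 1 := by
  have h : ∀ M : ℕ, 1 ≤ M → ∑ k ∈ Ico 1 M, (1 / (k : ℝ) - 1 / ((k : ℝ) + 1)) = 1 - 1 / M := by
    intro M hM
    induction M, hM using Nat.le_induction with
    | base => simp
    | succ M hM ih =>
      rw [Finset.sum_Ico_succ_top hM, ih]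
      push_cast
      ring
  rcases Nat.eq_zero_or_pos M with h0 | h0
  · subst h0; simp
  · rw [h M h0]
    have : (0 : ℝ) ≤ 1 / M := by positivity
    linarith

lemma lg_dil (X q : ℕ) (f : ℕ → ℝ) (B : ℝ) (hq : 1 ≤ q) (h0 : ∀ n, 0 ≤ f n)
    (h1 : ∀ n, f n ≤ B) :
    |EB.lg X (fun n => f (n / q)) - EB.lg X f| ≤ B * (3 + Real.log q) := by
  have hB : 0 ≤ B := (h0 0).trans (h1 0)
  have hlq : 0 ≤ Real.log q := Real.log_natCast_nonneg q
  have hw : ∀ k, 0 ≤ ∑ n ∈ (Icc 1 X).filter (fun n => n / q = k), 1 / (n : ℝ) := fun k =>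
    Finset.sum_nonneg fun n _ => by positivity
  have hIco : ∑ k ∈ range (X / q + 1),
      f k * ∑ n ∈ (Icc 1 X).filter (fun n => n / q = k), 1 / (n : ℝ) =
      f 0 * ∑ n ∈ (Icc 1 X).filter (fun n => n / q = 0), 1 / (n : ℝ) +
      ∑ k ∈ Icc 1 (X / q),
        f k * ∑ n ∈ (Icc 1 X).filter (fun n => n / q = k), 1 / (n : ℝ) := by
    rw [Finset.range_eq_Ico, Finset.sum_eq_sum_Ico_succ_bot (Nat.succ_pos _)]
    rfl
  rw [abs_le]
  constructor
  · -- lower bound
    rw [lg_fib]
    rcases Nat.eq_zero_or_pos (X / q) with hM | hM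
    · have hXq : X < q := (Nat.div_eq_zero_iff_lt (by omega)).1 hM
      have h2 : EB.lg X f ≤ B * hs X := lg_le X f B h1
      have h3 : hs X ≤ hs q := by
        have := hs_mono X (q - X)
        rwa [show X + (q - X) = q by omega] at this
      have h4 := hs_le q hq
      have h5 : 0 ≤ ∑ k ∈ range (X / q + 1),
          f k * ∑ n ∈ (Icc 1 X).filter (fun n => n / q = k), 1 / (n : ℝ) :=
        Finset.sum_nonneg fun k _ => mul_nonneg (h0 k) (hw k)
      have h6 : B * hs X ≤ B * (3 + Real.log q) := mul_le_mul_of_nonneg_left (by linarith) hB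
      linarith
    · set M := X / q with hMdef
      have hMX : M ≤ X := Nat.div_le_self _ _
      have h2 : ∑ k ∈ Ico 1 M, f k * (1 / ((k : ℝ) + 1)) ≤ ∑ k ∈ range (M + 1),
          f k * ∑ n ∈ (Icc 1 X).filter (fun n => n / q = k), 1 / (n : ℝ) := by
        calc ∑ k ∈ Ico 1 M, f k * (1 / ((k : ℝ) + 1))
            ≤ ∑ k ∈ Ico 1 M,
              f k * ∑ n ∈ (Icc 1 X).filter (fun n => n / q = k), 1 / (n : ℝ) := by
              refine Finset.sum_le_sum fun k hk => ?_
              rw [mem_Ico] at hk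
              exact mul_le_mul_of_nonneg_left (fib_ge X q k hq hk.1 hk.2) (h0 k)
          _ ≤ _ := by
              refine Finset.sum_le_sum_of_subset_of_nonneg ?_ fun k _ _ =>
                mul_nonneg (h0 k) (hw k)
              intro k hk
              rw [mem_Ico] at hk
              rw [mem_range]
              omega
      have h3 : ∑ k ∈ Ico 1 M, f k * (1 / (k : ℝ)) ≤
          ∑ k ∈ Ico 1 M, f k * (1 / ((k : ℝ) + 1)) + B := by
        have h4 : ∑ k ∈ Ico 1 M, f k * (1 / (k : ℝ)) =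
            ∑ k ∈ Ico 1 M, f k * (1 / ((k : ℝ) + 1)) +
            ∑ k ∈ Ico 1 M, f k * (1 / (k : ℝ) - 1 / ((k : ℝ) + 1)) := by
          rw [← Finset.sum_add_distrib]
          exact Finset.sum_congr rfl fun k _ => by ring
        have h5 : ∑ k ∈ Ico 1 M, f k * (1 / (k : ℝ) - 1 / ((k : ℝ) + 1)) ≤
            B * ∑ k ∈ Ico 1 M, (1 / (k : ℝ) - 1 / ((k : ℝ) + 1)) := by
          rw [Finset.mul_sum]
          refine Finset.sum_le_sum fun k hk => ?_
          rw [mem_Ico] at hk
          apply mul_le_mul_of_nonneg_right (h1 k)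
          have : (1 : ℝ) ≤ k := by exact_mod_cast hk.1
          rw [sub_nonneg]
          exact one_div_le_one_div_of_le (by linarith) (by linarith)
        have h6 : B * ∑ k ∈ Ico 1 M, (1 / (k : ℝ) - 1 / ((k : ℝ) + 1)) ≤ B * 1 :=
          mul_le_mul_of_nonneg_left (tel_one M) hB
        linarith
      have h4 : EB.lg X f ≤ ∑ k ∈ Ico 1 M, f k * (1 / (k : ℝ)) + B * (hs X - hs (M - 1)) := by
        unfold Pool.Agent.H93.EB.lg
        have e1 : ∑ n ∈ Icc 1 X, f n / (n : ℝ) =
            ∑ n ∈ Ico 1 M, f n / (n : ℝ) + ∑ n ∈ Ico M (X + 1), f n / (n : ℝ) := by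
          rw [Finset.sum_Ico_consecutive _ (by omega) (by omega)]
          rfl
        have e2 : hs X = hs (M - 1) + ∑ n ∈ Ico M (X + 1), 1 / (n : ℝ) := by
          unfold hs
          have : Icc 1 (M - 1) = Ico 1 M := by
            ext k
            rw [mem_Icc, mem_Ico]
            omega
          rw [this, Finset.sum_Ico_consecutive _ (by omega) (by omega)]
          rfl
        rw [e1, e2, add_sub_cancel_left, Finset.mul_sum]
        refine add_le_add (le_of_eq (Finset.sum_congr rfl fun k _ => by ring)) ?_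
        refine Finset.sum_le_sum fun k _ => ?_
        rw [mul_one_div]
        exact div_le_div_of_nonneg_right (h1 k) (Nat.cast_nonneg _)
      have h5 : hs X - hs (M - 1) ≤ 2 + Real.log q := by
        have hX1 : 1 ≤ X := by omega
        have e1 := hs_le X hX1
        have e2 : Real.log M ≤ hs (M - 1) := by
          rw [hs_eq]
          have := log_add_one_le_harmonic (M - 1)
          have e3 : ((M - 1 : ℕ) : ℝ) + 1 = M := by
            rw [Nat.cast_sub (by omega)]
            push_cast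
            ring
          rw [show (M - 1 + 1 : ℕ) = M by omega] at this
          exact this
        have hM0 : (0 : ℝ) < M := by exact_mod_cast hM
        have hq0 : (0 : ℝ) < q := by exact_mod_cast hq
        have e3 : (X : ℝ) ≤ q * (2 * M) := by
          have e4 := Nat.div_add_mod X q
          have r1 := Nat.mod_lt X (by omega : 0 < q)
          have e5 : X ≤ q * (M + 1) := by
            have : q * (M + 1) = q * M + q := by ring
            rw [this, hMdef]
            omega
          have e6 : q * (M + 1) ≤ q * (2 * M) := Nat.mul_le_mul_left _ (by omega)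
          exact_mod_cast e5.trans e6
        have e4 : Real.log X ≤ Real.log q + (Real.log 2 + Real.log M) := by
          rw [← Real.log_mul (by norm_num) hM0.ne', ← Real.log_mul hq0.ne' (by positivity)]
          exact Real.log_le_log (by exact_mod_cast hX1) e3
        have e5 := Real.log_two_lt_d9
        linarith
      have h6 : B * (hs X - hs (M - 1)) ≤ B * (2 + Real.log q) :=
        mul_le_mul_of_nonneg_left h5 hB
      linarith
  · -- upper bound
    rw [lg_fib, hIco]
    have h2 : f 0 * ∑ n ∈ (Icc 1 X).filter (fun n => n / q = 0), 1 / (n : ℝ) ≤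
        B * (1 + Real.log q) :=
      mul_le_mul (h1 0) (fib_zero X q hq) (hw 0) hB
    have h3 : ∑ k ∈ Icc 1 (X / q),
        f k * ∑ n ∈ (Icc 1 X).filter (fun n => n / q = k), 1 / (n : ℝ) ≤ EB.lg X f := by
      unfold Pool.Agent.H93.EB.lg
      calc _ ≤ ∑ k ∈ Icc 1 (X / q), f k / (k : ℝ) := by
            refine Finset.sum_le_sum fun k hk => ?_
            rw [mem_Icc] at hk
            rw [div_eq_mul_one_div]
            exact mul_le_mul_of_nonneg_left (fib_le X q k hq hk.1) (h0 k)
        _ ≤ _ := by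
            refine Finset.sum_le_sum_of_subset_of_nonneg ?_ fun k _ _ =>
              div_nonneg (h0 k) (Nat.cast_nonneg _)
            intro k hk
            rw [mem_Icc] at hk ⊢
            exact ⟨hk.1, hk.2.trans (Nat.div_le_self _ _)⟩
    nlinarith

theorem pf_DLG : Pool.Agent.H72.GS2.T_DLG := by
  intro th hth _
  set B : ℝ := 2 * (2 * (1 / th) + (1 / th) ^ 2) with hB
  have hB0 : 0 ≤ B := by positivity
  refine ⟨6 + 2 * B, by positivity, ?_⟩
  intro X k q lam hX hl hq hqk
  have hq1 : 1 ≤ q := hq.one_lt.le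
  have hlam : ∀ m, |lam m| ≤ 1 := by
    intro m
    rcases hl.pm m with h | h <;> rw [h] <;> simp
  have hqH : q ≤ 2 ^ k := by
    refine le_trans ?_ hqk
    nlinarith
  have hN1 : 1 ≤ 2 ^ k / q := (Nat.one_le_div_iff (by omega)).2 hqH
  have hlog : 1 ≤ Real.log X := by
    have h1 : (3 : ℝ) ≤ X := by exact_mod_cast hX
    rw [Real.le_log_iff_exp_le (by linarith)]
    have := Real.exp_one_lt_d9
    linarith
  have hlq : Real.log q ≤ k := by
    have h1 : Real.log q ≤ Real.log ((2 : ℝ) ^ k) := by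
      apply Real.log_le_log (by exact_mod_cast hq1)
      exact_mod_cast hqH
    rw [Real.log_pow] at h1
    have h2 := Real.log_two_lt_d9
    have h3 : (k : ℝ) * Real.log 2 ≤ k * 1 :=
      mul_le_mul_of_nonneg_left (by linarith) (Nat.cast_nonneg _)
    linarith
  have hlq0 : 0 ≤ Real.log q := Real.log_natCast_nonneg q
  set f : ℕ → ℝ := fun n => En th lam 1 (2 ^ k / q) n with hf
  have hd := lg_dil X q f 2 hq1 (fun n => En_nonneg th lam 1 _ n hth le_rfl hN1 hlam)
    (fun n => En_le th lam 1 _ n hth le_rfl hN1 hlam)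
  have hpt : ∀ n, |En th lam q (2 ^ k) n - f (n / q)| ≤ B * ((q : ℝ) / 2 ^ k) := by
    intro n
    have := En_dil th lam q (2 ^ k) n hth hl hq hqH
    push_cast at this
    exact this
  have hc0 : 0 ≤ B * ((q : ℝ) / 2 ^ k) := by positivity
  have hhs : hs X ≤ 2 * Real.log X := by
    have := hs_le X (by omega)
    linarith
  have hdiff : |EB.lg X (fun n => En th lam q (2 ^ k) n) - EB.lg X (fun n => f (n / q))| ≤
      B * ((q : ℝ) / 2 ^ k) * (2 * Real.log X) := by
    have e : EB.lg X (fun n => En th lam q (2 ^ k) n) - EB.lg X (fun n => f (n / q)) =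
        ∑ n ∈ Icc 1 X, (En th lam q (2 ^ k) n - f (n / q)) / (n : ℝ) := by
      unfold Pool.Agent.H93.EB.lg
      rw [← Finset.sum_sub_distrib]
      exact Finset.sum_congr rfl fun n _ => by ring
    rw [e]
    refine (Finset.abs_sum_le_sum_abs _ _).trans ?_
    calc ∑ n ∈ Icc 1 X, |(En th lam q (2 ^ k) n - f (n / q)) / (n : ℝ)|
        ≤ ∑ n ∈ Icc 1 X, B * ((q : ℝ) / 2 ^ k) * (1 / (n : ℝ)) := by
          refine Finset.sum_le_sum fun n _ => ?_
          rw [abs_div, abs_of_nonneg (Nat.cast_nonneg n : (0 : ℝ) ≤ n), mul_one_div]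
          exact div_le_div_of_nonneg_right (hpt n) (Nat.cast_nonneg _)
      _ = B * ((q : ℝ) / 2 ^ k) * hs X := by
          unfold hs
          rw [Finset.mul_sum]
      _ ≤ _ := mul_le_mul_of_nonneg_left hhs hc0
  have htri : |EB.lg X (fun n => En th lam q (2 ^ k) n) -
      EB.lg X (fun n => En th lam 1 (2 ^ k / q) n)| ≤
      B * ((q : ℝ) / 2 ^ k) * (2 * Real.log X) + 2 * (3 + Real.log q) := by
    calc _ = |(EB.lg X (fun n => En th lam q (2 ^ k) n) - EB.lg X (fun n => f (n / q))) +
          (EB.lg X (fun n => f (n / q)) - EB.lg X f)| := by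
            congr 1
            rw [hf]
            ring
      _ ≤ _ := (abs_add_le _ _).trans (add_le_add hdiff hd)
  refine htri.trans ?_
  have hk0 : (0 : ℝ) ≤ k := Nat.cast_nonneg _
  have hqk0 : (0 : ℝ) ≤ (q : ℝ) / 2 ^ k * Real.log X := by positivity
  have h1 : 2 * (3 + Real.log q) ≤ 6 * ((k : ℝ) + 1) := by linarith
  have h2 : B * ((q : ℝ) / 2 ^ k) * (2 * Real.log X) = 2 * B * ((q : ℝ) / 2 ^ k * Real.log X) := by
    ring
  have h3 : (6 + 2 * B) * ((q : ℝ) / 2 ^ k) * Real.log X =
      6 * ((q : ℝ) / 2 ^ k * Real.log X) + 2 * B * ((q : ℝ) / 2 ^ k * Real.log X) := by ring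
  have h4 : (6 + 2 * B) * ((k : ℝ) + 1) = 6 * ((k : ℝ) + 1) + 2 * B * ((k : ℝ) + 1) := by ring
  rw [h2, h3, h4]
  have h5 : 0 ≤ 2 * B * ((k : ℝ) + 1) := by positivity
  linarith

end Pool.Agent.H87.GS2.D
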