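import Pool.Agent.H87.GS2.Pre

/-!
# Theorem (G), section 2: from one level to all levels, the core
-/

set_option autoImplicit false

namespace Pool.Agent.H87.GS2

open Finset Pool.Agent.H6.N4D Pool.Agent.H93 Pool.Agent.H93.GS

/-- the inequality of one level, with the constants -/
def LVGc (th κ c₁ δ C : ℝ) (p₀ m₁ : ℕ) : Prop :=
  0 < κ ∧ 0 < c₁ ∧ 0 < δ ∧ 0 < C ∧ 4 * p₀ ≤ m₁ ∧
  ∀ (η : ℝ) (A X m : ℕ) (lam : ℕ → ℝ), 0 < η → η ≤ 1 → 2 ≤ A → 3 ≤ X → m₁ ≤ m → Lio lam →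
    EB.lg X (fun n => En th lam 1 (2 ^ (m - m / 500)) n) -
        EB.lg X (fun n => En th lam 1 (2 ^ (A * m - m / 100)) n) ≤
      (1 + η) * (EB.lg X (fun n => En th lam 1 (2 ^ m) n) -
        EB.lg X (fun n => En th lam 1 (2 ^ (A * m)) n)) +
      C / η * (H72.EN.bA lam X m + bF lam X m (th / 2) δ c₁ + gm th lam X p₀ m +
        gmq th lam X p₀ m + (1 / 2) ^ (m / 2000) * Real.log X + A * m + 1)

lemma sum_tail (k₀ me A : ℕ) (D Y : ℝ) (h1 : 1 ≤ k₀) (hD : 0 ≤ D) (hY : 0 < Y) :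
    ∑ m ∈ Icc k₀ me, 1 / (m : ℝ) * (D * ((1 / 2) ^ (m / 2000) + (A * m + 1) / Y)) ≤
      D * (4000 * (1 / 2) ^ (k₀ / 2000) + me * (A + 1) / Y) := by
  have h2 : ∀ m ∈ Icc k₀ me, 1 / (m : ℝ) * (D * ((1 / 2) ^ (m / 2000) +
      (A * m + 1) / Y)) ≤ D * (1 / 2) ^ (m / 2000) + D * ((A + 1) / Y) := by
    intro m hm
    rw [mem_Icc] at hm
    have hm1 : (1 : ℝ) ≤ m := by exact_mod_cast h1.trans hm.1
    have hm0 : (0 : ℝ) < m := by linarith
    have hi : 1 / (m : ℝ) ≤ 1 := by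
      rw [div_le_one hm0]; exact hm1
    have e1 : 1 / (m : ℝ) * (D * ((1 / 2) ^ (m / 2000) + (A * m + 1) / Y)) =
        1 / (m : ℝ) * (D * (1 / 2) ^ (m / 2000)) + D * ((A + 1 / m) / Y) := by
      field_simp
    rw [e1]
    have e2 : 1 / (m : ℝ) * (D * (1 / 2) ^ (m / 2000)) ≤ D * (1 / 2) ^ (m / 2000) :=
      mul_le_of_le_one_left (by positivity) hi
    have e4 : D * ((A + 1 / (m : ℝ)) / Y) ≤ D * ((A + 1) / Y) := by
      gcongr
    linarith
  refine (sum_le_sum h2).trans ?_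
  rw [sum_add_distrib, ← mul_sum, sum_const, nsmul_eq_mul]
  have h3 := mul_le_mul_of_nonneg_left (Pool.Agent.H35.ENL.pf_GSM k₀ me) hD
  have h4 : ((Icc k₀ me).card : ℝ) ≤ me := by
    rw [Nat.card_Icc]
    exact_mod_cast (by omega : me + 1 - k₀ ≤ me)
  have h5 : ((Icc k₀ me).card : ℝ) * (D * ((A + 1) / Y)) ≤ me * (D * ((A + 1) / Y)) :=
    mul_le_mul_of_nonneg_right h4 (by positivity)
  have h6 : D * (4000 * (1 / 2) ^ (k₀ / 2000) + me * (A + 1) / Y) =
      D * (4000 * (1 / 2) ^ (k₀ / 2000)) + me * (D * ((A + 1) / Y)) := by ring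
  linarith

/-- The core of the two stages. -/
lemma core {th κ c₁ δ CL CM CG : ℝ} {p₀ m₁ : ℕ} (hth : 0 < th) (hL : LVGc th κ c₁ δ CL p₀ m₁)
    (hCM : 0 < CM) (hCG : 0 < CG)
    (hmn : ∀ (X k l q : ℕ) (lam : ℕ → ℝ), 3 ≤ X → (∀ n, |lam n| ≤ 1) → k ≤ l → 1 ≤ q → q ≤ 2 ^ k →
      EB.lg X (fun n => En th lam q (2 ^ l) n) ≤
      EB.lg X (fun n => En th lam q (2 ^ k) n) + CM * (l + 1))
    (hgq : ∀ (X m₀ me : ℕ) (lam : ℕ → ℝ), 3 ≤ X → (∀ n, |lam n| ≤ 1) → 1000 * (p₀ + 1) ≤ m₀ →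
      m₀ ≤ me → ∑ m ∈ Icc m₀ me, 1 / (m : ℝ) * (gm th lam X p₀ m + gmq th lam X p₀ m) ≤
      CG / m₀ * Real.log X + CG * (me + 1) * (1 + Real.log me))
    (lam : ℕ → ℝ) (X A B k₀ k : ℕ) (η E : ℝ) (hX : 3 ≤ X) (hlam : Lio lam) (hA : 2 ≤ A)
    (hB : 2 ≤ B) (h0 : 0 < η) (h1 : η ≤ 1) (hk1 : 3500 ≤ k₀) (hk2 : 100 * A ≤ k₀) (hk3 : m₁ ≤ k₀)
    (hk4 : 1000 * (p₀ + 1) ≤ k₀) (hk : k₀ ≤ k)
    (hE : ∀ (K : ℕ) (c : ℕ → ℕ), H72.EN.Chn B k₀ (2 * k) K c →
      ∑ i ∈ range K, (H72.EN.bA lam X (c i) + bF lam X (c i) (th / 2) δ c₁) ≤ E * Real.log X) :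
    te th lam X k₀ - te th lam X k ≤ 48 / A + 1200 * η * A + 1200 * B * (CL / η * E) +
      600 * (CL / η) * (CG / k₀) +
      600 * (CL / η) * (CG * ((2 * k : ℕ) + 1) * (1 + Real.log (2 * k : ℕ)) / Real.log X) +
      600 * (CL / η) * (4000 * (1 / 2) ^ (k₀ / 2000) + (2 * k : ℕ) * (A + 1) / Real.log X) +
      (1800 * (2 + Real.log (2 * k : ℕ)) + 1) *
        (CM * ((A * (2 * k) : ℕ) + 1) / Real.log X) := by
  obtain ⟨-, -, -, hCL, -, hlev⟩ := hL
  have hX3 : (3 : ℝ) ≤ X := by exact_mod_cast hX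
  have hY1 : 1 ≤ Real.log X := by
    rw [Real.le_log_iff_exp_le (by linarith)]
    have := Real.exp_one_lt_d9
    linarith
  set Y := Real.log X with hYd
  have hY : 0 < Y := by linarith
  have hl1 : ∀ n, |lam n| ≤ 1 := by
    intro n
    rcases hlam.pm n with h | h <;> rw [h] <;> norm_num
  set D := CL / η with hDd
  have hD : 0 < D := by positivity
  set me := 2 * k with hme
  set Δ := CM * ((A * me : ℕ) + 1) / Y with hΔ
  have hΔ0 : 0 ≤ Δ := by positivity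
  have hmono : ∀ i j, i ≤ j → j ≤ A * me → te th lam X j ≤ te th lam X i + Δ := by
    intro i j hij hj
    unfold te
    rw [← hYd]
    have h2 := hmn X i j 1 lam hX hl1 hij le_rfl Nat.one_le_two_pow
    have h3 : CM * ((j : ℝ) + 1) ≤ CM * ((A * me : ℕ) + 1) := by
      have : (j : ℝ) ≤ (A * me : ℕ) := by exact_mod_cast hj
      gcongr
    rw [hΔ, ← add_div]
    exact div_le_div_of_nonneg_right (by linarith) hY.le
  have hme1 : 1 ≤ me := by omega
  have hkk : k ≤ me - me / 500 := by omega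
  have hT := H72.EN.tel A B k₀ me η 0 (Δ / 2) (D * E / 2) (fun k => te th lam X k / 2)
    (fun _ => 0)
    (fun m => D * ((H72.EN.bA lam X m + bF lam X m (th / 2) δ c₁) / (2 * Y)))
    (fun m => D / 2 * ((gm th lam X p₀ m + gmq th lam X p₀ m) / Y) +
      D / 2 * ((1 / 2) ^ (m / 2000) + (A * m + 1) / Y))
    hA hB hk1 hk2 (by omega) h0.le h1 le_rfl (by positivity)
    (fun k => by
      have := lg_En hth hl1 X k hX
      unfold te
      rw [← hYd]
      constructor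
      · have := this.1
        positivity
      · rw [div_div, div_le_one (by positivity)]
        linarith [this.2])
    (fun k => ⟨le_rfl, by norm_num⟩)
    (fun i j hij hj => ⟨by
      have := hmono i j hij hj
      linarith, by
      have : 0 ≤ Δ / 2 := by positivity
      linarith⟩)
    (fun m => by
      have h2 := (Pool.Agent.H38.EL.pf_BAB lam X m hl1).1
      have h3 := bF_nonneg lam X m (th / 2) δ c₁
      positivity)
    (fun K c hc => by
      have h2 := hE K c hc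
      rw [← mul_sum]
      have h3 : D * E / 2 = D * (E / 2) := by ring
      rw [h3]
      refine mul_le_mul_of_nonneg_left ?_ hD.le
      rw [← sum_div, div_le_iff₀ (by positivity)]
      linarith)
    (fun m hm => by
      rw [mem_Icc] at hm
      have b1 := hlev η A X m lam h0 h1 hA hX (by omega) hlam
      simp only [te]
      rw [← hYd] at b1 ⊢
      rw [← hDd] at b1
      set P1 := EB.lg X (fun n => En th lam 1 (2 ^ (m - m / 500)) n)
      set P2 := EB.lg X (fun n => En th lam 1 (2 ^ (A * m - m / 100)) n)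
      set P3 := EB.lg X (fun n => En th lam 1 (2 ^ m) n)
      set P4 := EB.lg X (fun n => En th lam 1 (2 ^ (A * m)) n)
      have b5 := div_le_div_of_nonneg_right b1 (by positivity : (0 : ℝ) ≤ 2 * Y)
      have e1 : (P1 - P2) / (2 * Y) = P1 / Y / 2 - P2 / Y / 2 := by
        field_simp
      have e2 : ((1 + η) * (P3 - P4) + D * (H72.EN.bA lam X m + bF lam X m (th / 2) δ c₁ +
          gm th lam X p₀ m + gmq th lam X p₀ m + (1 / 2) ^ (m / 2000) * Y + A * m + 1)) /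
          (2 * Y) = (1 + η) * (P3 / Y / 2 - P4 / Y / 2) +
          D * ((H72.EN.bA lam X m + bF lam X m (th / 2) δ c₁) / (2 * Y)) + 0 * ((0 : ℝ) - 0) +
          (D / 2 * ((gm th lam X p₀ m + gmq th lam X p₀ m) / Y) +
          D / 2 * ((1 / 2) ^ (m / 2000) + (A * m + 1) / Y)) := by
        field_simp
        ring
      rw [e1, e2] at b5
      exact b5)
  have hr : ∑ m ∈ Icc k₀ me, 1 / (m : ℝ) * (D / 2 * ((gm th lam X p₀ m + gmq th lam X p₀ m) / Y) +
      D / 2 * ((1 / 2) ^ (m / 2000) + (A * m + 1) / Y)) ≤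
      D / 2 * (CG / k₀ + CG * (me + 1) * (1 + Real.log me) / Y) +
      D / 2 * (4000 * (1 / 2) ^ (k₀ / 2000) + me * (A + 1) / Y) := by
    have h2 := sum_tail k₀ me A (D / 2) Y (by omega) (by positivity) hY
    have h3 := hgq X k₀ me lam hX hl1 hk4 (by omega)
    rw [← hYd] at h3
    have h4 : ∑ m ∈ Icc k₀ me, 1 / (m : ℝ) * (D / 2 * ((gm th lam X p₀ m +
        gmq th lam X p₀ m) / Y)) = D / 2 / Y * ∑ m ∈ Icc k₀ me, 1 / (m : ℝ) *
        (gm th lam X p₀ m + gmq th lam X p₀ m) := by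
      rw [mul_sum]
      exact sum_congr rfl fun m _ => by ring
    have h5 := mul_le_mul_of_nonneg_left h3 (by positivity : 0 ≤ D / 2 / Y)
    have h6 : D / 2 / Y * (CG / k₀ * Y + CG * (me + 1) * (1 + Real.log me)) =
        D / 2 * (CG / k₀ + CG * (me + 1) * (1 + Real.log me) / Y) := by
      field_simp
    have h7 : ∑ m ∈ Icc k₀ me, 1 / (m : ℝ) * (D / 2 * ((gm th lam X p₀ m +
        gmq th lam X p₀ m) / Y) + D / 2 * ((1 / 2) ^ (m / 2000) + (A * m + 1) / Y)) =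
        ∑ m ∈ Icc k₀ me, 1 / (m : ℝ) * (D / 2 * ((gm th lam X p₀ m +
        gmq th lam X p₀ m) / Y)) + ∑ m ∈ Icc k₀ me, 1 / (m : ℝ) * (D / 2 * ((1 / 2) ^ (m / 2000) +
        (A * m + 1) / Y)) := by
      rw [← sum_add_distrib]
      exact sum_congr rfl fun m _ => mul_add _ _ _
    rw [h7, h4]
    linarith
  obtain ⟨hh0, hh1⟩ := H72.EN.pf_HAR' k₀ me (by omega) hme1
  have hlast := hmono k (me - me / 500) hkk (by
    have : me ≤ A * me := Nat.le_mul_of_pos_left _ (by omega)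
    omega)
  have hh2 : 600 * (3 + 0) * (Δ / 2) * (1 + ∑ m ∈ Icc k₀ me, 1 / (m : ℝ)) ≤
      600 * (3 + 0) * (Δ / 2) * (2 + Real.log me) := by
    refine mul_le_mul_of_nonneg_left ?_ (by positivity)
    linarith
  simp only [mul_zero, zero_div, add_zero] at hT hh2
  have e1 : (1800 * (2 + Real.log (me : ℝ)) + 1) * Δ =
      2 * (600 * 3 * (Δ / 2) * (2 + Real.log me)) + Δ := by ring
  have e2 : 1200 * (B : ℝ) * (D * E) = 2 * (1200 * B * (D * E / 2)) := by ring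
  have e3 : 48 / (A : ℝ) = 2 * (24 / A) := by ring
  have e4 : 600 * D * (CG / k₀) + 600 * D * (CG * (me + 1) * (1 + Real.log me) / Y) +
      600 * D * (4000 * (1 / 2) ^ (k₀ / 2000) + me * (A + 1) / Y) =
      2 * (600 * (D / 2 * (CG / k₀ + CG * (me + 1) * (1 + Real.log me) / Y) +
      D / 2 * (4000 * (1 / 2) ^ (k₀ / 2000) + me * (A + 1) / Y))) := by ring
  linarith

end Pool.Agent.H87.GS2
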