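import Pool.Agent.H87.GS2.Core

/-!
# Theorem (G), section 2: the energy is almost constant below the logarithm
-/

set_option autoImplicit false

namespace Pool.Agent.H87.GS2

open Finset Pool.Agent.H6.N4D Pool.Agent.H93 Pool.Agent.H93.GS

/-- `1 + log (2 k) ≤ 2 (1 + log (k + 1))` -/
lemma log_two_mul (k : ℕ) (hk : 1 ≤ k) :
    1 + Real.log ((2 * k : ℕ) : ℝ) ≤ 2 * (1 + Real.log (k + 1)) ∧
    2 + Real.log ((2 * k : ℕ) : ℝ) ≤ 3 * (1 + Real.log (k + 1)) ∧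
    0 ≤ Real.log ((2 * k : ℕ) : ℝ) ∧ 0 ≤ Real.log ((k : ℝ) + 1) := by
  have hk' : (0 : ℝ) < k := by exact_mod_cast hk
  have h0 : 0 ≤ Real.log ((2 * k : ℕ) : ℝ) := Real.log_natCast_nonneg _
  have h1 : Real.log (k : ℝ) ≤ Real.log (k + 1) := Real.log_le_log hk' (by linarith)
  have h2 := Real.log_two_lt_d9
  have h3 : Real.log ((2 * k : ℕ) : ℝ) = Real.log 2 + Real.log k := by
    push_cast
    rw [Real.log_mul (by norm_num) hk'.ne']
  have h4 : 0 ≤ Real.log ((k : ℝ) + 1) := Real.log_nonneg (by linarith)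
  refine ⟨by linarith, by linarith, h0, h4⟩

/-- `k ≤ 2 (log X) ^ (24/25)` if `16 ^ k ≤ log X` -/
lemma k_le_of_pow {k : ℕ} {Y : ℝ} (hY : 0 ≤ Y) (h : (16 : ℝ) ^ k ≤ Y) :
    (k : ℝ) ≤ 2 * Y ^ (24 / 25 : ℝ) := by
  have h1 : ((16 : ℝ) ^ k) ^ (24 / 25 : ℝ) ≤ Y ^ (24 / 25 : ℝ) :=
    Real.rpow_le_rpow (by positivity) h (by norm_num)
  have h2 : (2 : ℝ) ^ k ≤ ((16 : ℝ) ^ k) ^ (24 / 25 : ℝ) := by
    have h3 : ((16 : ℝ) ^ k) ^ (24 / 25 : ℝ) = ((16 : ℝ) ^ (24 / 25 : ℝ)) ^ k := by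
      rw [← Real.rpow_natCast (16 : ℝ) k, ← Real.rpow_mul (by norm_num),
        ← Real.rpow_natCast ((16 : ℝ) ^ (24 / 25 : ℝ)) k, ← Real.rpow_mul (by norm_num),
        mul_comm]
    rw [h3]
    refine pow_le_pow_left₀ (by norm_num) ?_ k
    have h4 : (16 : ℝ) ^ (1 / 4 : ℝ) ≤ (16 : ℝ) ^ (24 / 25 : ℝ) :=
      Real.rpow_le_rpow_of_exponent_le (by norm_num) (by norm_num)
    have h5 : (16 : ℝ) ^ (1 / 4 : ℝ) = 2 := by
      rw [show (16 : ℝ) = 2 ^ (4 : ℕ) by norm_num, ← Real.rpow_natCast,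
        ← Real.rpow_mul (by norm_num)]
      norm_num
    linarith
  have h6 : (k : ℝ) ≤ 2 ^ k := by
    have : k < 2 ^ k := Nat.lt_two_pow_self
    exact_mod_cast this.le
  have h7 : 0 ≤ Y ^ (24 / 25 : ℝ) := by positivity
  linarith

/-- The choice of the parameters and the end of the proof, common to both stages. -/
lemma finish {ε D CG CM ε₂ Φ Y η : ℝ} {A B k₀ k y : ℕ} (hε : 0 < ε) (hD : 0 < D) (hCG : 0 < CG)
    (hCM : 0 < CM) (hA2 : 2 ≤ A) (hAε : 480 / ε ≤ A) (hηε : 1200 * η * A ≤ ε / 10)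
    (hB2 : 2 ≤ B) (hy1 : 1 ≤ y) (hy2 : 6000 * D * CG / ε ≤ y) (hy3 : 24000000 * D / ε ≤ y)
    (hyk : 2000 * y ≤ k₀) (hk1 : 1 ≤ k) (hY : 0 < Y) (hε₂ : 12000 * B * D * ε₂ ≤ ε)
    (hΦd : Φ = ((k : ℝ) + 1) * (1 + Real.log (k + 1)))
    (hΦ : (4800 * B * D + 2400 * D * CG + 1200 * D * (A + 1) + 10802 * A * CM) * Φ ≤
      ε / 10 * Y) :
    48 / A + 1200 * η * A + 1200 * B * (D * (ε₂ + 4 * Φ / Y)) +
      600 * D * (CG / k₀) +
      600 * D * (CG * ((2 * k : ℕ) + 1) * (1 + Real.log (2 * k : ℕ)) / Y) +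
      600 * D * (4000 * (1 / 2) ^ (k₀ / 2000) + (2 * k : ℕ) * (A + 1) / Y) +
      (1800 * (2 + Real.log (2 * k : ℕ)) + 1) *
        (CM * ((A * (2 * k) : ℕ) + 1) / Y) ≤ ε := by
  have hA0 : (0 : ℝ) < A := by
    have : (2 : ℝ) ≤ A := by exact_mod_cast hA2
    linarith
  have hB0 : (0 : ℝ) < B := by
    have : (2 : ℝ) ≤ B := by exact_mod_cast hB2
    linarith
  have hy0 : (0 : ℝ) < y := by exact_mod_cast hy1
  obtain ⟨l1, l2, l3, l4⟩ := log_two_mul k hk1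
  have hk0r : (0 : ℝ) ≤ k := Nat.cast_nonneg _
  have hΦk : (k : ℝ) + 1 ≤ Φ := by
    rw [hΦd]
    nlinarith
  have hΦ0 : 0 < Φ := by linarith
  have t1 : 48 / (A : ℝ) ≤ ε / 10 := by
    rw [div_le_iff₀ hA0]
    rw [div_le_iff₀ hε] at hAε
    linarith
  have t3a : 1200 * B * (D * ε₂) ≤ ε / 10 := by linarith
  have t4 : 600 * D * (CG / (k₀ : ℝ)) ≤ ε / 10 := by
    have h1 : (y : ℝ) ≤ k₀ := by
      have : y ≤ k₀ := by omega
      exact_mod_cast this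
    have h2 : CG / (k₀ : ℝ) ≤ CG / y := div_le_div_of_nonneg_left hCG.le hy0 h1
    have h3 := mul_le_mul_of_nonneg_left h2 (by positivity : 0 ≤ 600 * D)
    refine h3.trans ?_
    rw [← mul_div_assoc, div_le_iff₀ hy0]
    rw [div_le_iff₀ hε] at hy2
    linarith
  have t5 : 600 * D * (4000 * (1 / 2) ^ (k₀ / 2000)) ≤ ε / 10 := by
    have h1 : ((1 : ℝ) / 2) ^ (k₀ / 2000) ≤ 1 / y := by
      apply H72.EN.half_pow_le hy0
      have : y ≤ k₀ / 2000 := by omega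
      exact_mod_cast this
    have h2 : 600 * D * (4000 * (1 / 2) ^ (k₀ / 2000)) ≤ 600 * D * (4000 * (1 / y)) := by
      gcongr
    refine h2.trans ?_
    have h3 : 600 * D * (4000 * (1 / (y : ℝ))) = 2400000 * D / y := by ring
    rw [h3, div_le_iff₀ hy0]
    rw [div_le_iff₀ hε] at hy3
    linarith
  have hk2 : ((2 * k : ℕ) : ℝ) + 1 ≤ 2 * ((k : ℝ) + 1) := by
    push_cast
    linarith
  have s1 : CG * ((2 * k : ℕ) + 1) * (1 + Real.log (2 * k : ℕ)) / Y ≤ 4 * CG * (Φ / Y) := by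
    have h1 : CG * ((2 * k : ℕ) + 1) * (1 + Real.log (2 * k : ℕ)) / Y ≤
        CG * (2 * ((k : ℝ) + 1)) * (2 * (1 + Real.log (k + 1))) / Y := by
      gcongr
    refine h1.trans (le_of_eq ?_)
    rw [hΦd]
    ring
  have s2 : ((2 * k : ℕ) : ℝ) * (A + 1) / Y ≤ 2 * (A + 1) * (Φ / Y) := by
    have h1 : ((2 * k : ℕ) : ℝ) * (A + 1) / Y ≤ 2 * Φ * (A + 1) / Y := by
      have : ((2 * k : ℕ) : ℝ) ≤ 2 * Φ := by
        push_cast
        linarith
      gcongr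
    refine h1.trans (le_of_eq ?_)
    ring
  have s3 : (1800 * (2 + Real.log (2 * k : ℕ)) + 1) * (CM * ((A * (2 * k) : ℕ) + 1) / Y) ≤
      10802 * A * CM * (Φ / Y) := by
    have h1 : ((A * (2 * k) : ℕ) : ℝ) + 1 ≤ 2 * A * (k + 1) := by
      push_cast
      have : (2 : ℝ) ≤ A := by exact_mod_cast hA2
      linarith
    have h2 : 1800 * (2 + Real.log (2 * k : ℕ)) + 1 ≤ 5401 * (1 + Real.log (k + 1)) := by
      linarith
    have h3 : 0 ≤ 1800 * (2 + Real.log (2 * k : ℕ)) + 1 := by linarith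
    have h4 : (1800 * (2 + Real.log (2 * k : ℕ)) + 1) * (CM * ((A * (2 * k) : ℕ) + 1) / Y) ≤
        (5401 * (1 + Real.log (k + 1))) * (CM * (2 * A * (k + 1)) / Y) := by
      gcongr
    refine h4.trans (le_of_eq ?_)
    rw [hΦd]
    ring
  have s4 : (4800 * B * D + 2400 * D * CG + 1200 * D * (A + 1) + 10802 * A * CM) * (Φ / Y) ≤
      ε / 10 := by
    rw [← mul_div_assoc, div_le_iff₀ hY]
    exact hΦ
  have u1 := mul_le_mul_of_nonneg_left s1 (by positivity : 0 ≤ 600 * D)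
  have u2 := mul_le_mul_of_nonneg_left s2 (by positivity : 0 ≤ 600 * D)
  have e1 : 1200 * B * (D * (ε₂ + 4 * Φ / Y)) = 1200 * B * (D * ε₂) +
      4800 * B * D * (Φ / Y) := by ring
  have e2 : 600 * D * (4000 * (1 / 2) ^ (k₀ / 2000) + (2 * k : ℕ) * (A + 1) / Y) =
      600 * D * (4000 * (1 / 2) ^ (k₀ / 2000)) + 600 * D * ((2 * k : ℕ) * (A + 1) / Y) := by ring
  rw [e1, e2]
  linarith

theorem pf_EN1 (hEBT : Pool.Agent.H22.GS.T_EBT) (hLVG : T_LVG) (hMNG : T_MNG) (hGMQ : T_GMQ) :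
    T_EN1 := by
  intro th hth hth1
  obtain ⟨κ, c₁, δ, CL, p₀, m₁, hκ, hc₁, hδ, hCL, hpm, hlev⟩ := hLVG th hth hth1
  obtain ⟨CM, hCM, hmn⟩ := hMNG th hth hth1
  obtain ⟨CG, hCG, hgq⟩ := hGMQ th p₀ hth hth1
  obtain ⟨B₀, hB₀, hbes⟩ := hEBT (th / 2) δ (by positivity) hδ
  obtain ⟨B, hBB, hB2⟩ : ∃ B : ℕ, B₀ ≤ B ∧ 2 ≤ B := ⟨max B₀ 2, le_max_left _ _, le_max_right _ _⟩
  have hB0 : (0 : ℝ) < B := by
    have : (2 : ℝ) ≤ B := by exact_mod_cast hB2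
    linarith
  refine ⟨4000 * B, by omega, ?_⟩
  intro ε hε
  obtain ⟨A, hA2, hAε⟩ : ∃ A : ℕ, 2 ≤ A ∧ 480 / ε ≤ A :=
    ⟨⌈480 / ε⌉₊ + 2, by omega, by
      have := Nat.le_ceil (480 / ε)
      push_cast
      linarith⟩
  have hA0 : (0 : ℝ) < A := by
    have : (2 : ℝ) ≤ A := by exact_mod_cast hA2
    linarith
  obtain ⟨η, hη0, hη1, hηε⟩ : ∃ η : ℝ, 0 < η ∧ η ≤ 1 ∧ 1200 * η * A ≤ ε / 10 := by
    refine ⟨min 1 (ε / (12000 * A)), lt_min one_pos (by positivity), min_le_left _ _, ?_⟩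
    have h1 : min 1 (ε / (12000 * A)) ≤ ε / (12000 * A) := min_le_right _ _
    have h2 : 1200 * min 1 (ε / (12000 * A)) * A ≤ 1200 * (ε / (12000 * A)) * A := by gcongr
    refine h2.trans (le_of_eq ?_)
    field_simp
    norm_num
  obtain ⟨D, hDd⟩ : ∃ D : ℝ, D = CL / η := ⟨_, rfl⟩
  have hD : 0 < D := by rw [hDd]; positivity
  obtain ⟨ε₁, hε₁d⟩ : ∃ ε₁ : ℝ, ε₁ = ε / (12000 * B * D * (1 + 1 / c₁ ^ 2)) := ⟨_, rfl⟩
  have hε₁ : 0 < ε₁ := by rw [hε₁d]; positivity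
  obtain ⟨e, he, hbes⟩ := hbes ε₁ hε₁
  refine ⟨e, he, ?_⟩
  intro R
  obtain ⟨s₁, hs₁⟩ := hbes R
  obtain ⟨y, hy1, hy2, hy3⟩ : ∃ y : ℕ, 1 ≤ y ∧ 6000 * D * CG / ε ≤ y ∧ 24000000 * D / ε ≤ y :=
    ⟨⌈6000 * D * CG / ε⌉₊ + ⌈24000000 * D / ε⌉₊ + 1, by omega, by
      have := Nat.le_ceil (6000 * D * CG / ε)
      push_cast
      have h2 : (0 : ℝ) ≤ (⌈24000000 * D / ε⌉₊ : ℝ) := Nat.cast_nonneg _
      linarith, by
      have := Nat.le_ceil (24000000 * D / ε)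
      push_cast
      have h2 : (0 : ℝ) ≤ (⌈6000 * D * CG / ε⌉₊ : ℝ) := Nat.cast_nonneg _
      linarith⟩
  obtain ⟨G, hGd⟩ : ∃ G : ℝ, G = 4800 * B * D + 2400 * D * CG + 1200 * D * (A + 1) +
    10802 * A * CM := ⟨_, rfl⟩
  have hG : 0 < G := by rw [hGd]; positivity
  obtain ⟨X₂, hX₂, hlim⟩ := H72.EN.pf_LIM' (ε / (10 * G)) (by positivity)
  refine ⟨s₁ + y + 100 * A + m₁ + p₀ + 1, ?_⟩
  intro s hs
  obtain ⟨X₁, hX₁⟩ := hs₁ s (by omega)
  refine ⟨max X₁ X₂, ?_⟩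
  intro X lam hX hlam hbase k₀ k hk₀ hk hkX16
  have hXX : X₂ ≤ X := le_trans (le_max_right _ _) hX
  have hX3 : 3 ≤ X := hX₂.trans hXX
  have hX3r : (3 : ℝ) ≤ X := by exact_mod_cast hX3
  have hY1 : 1 ≤ Real.log X := by
    rw [Real.le_log_iff_exp_le (by linarith)]
    have := Real.exp_one_lt_d9
    linarith
  have hl1 : ∀ n, |lam n| ≤ 1 := by
    intro n
    rcases hlam.pm n with h | h <;> rw [h] <;> norm_num
  have hkX := k_le_of_pow (by linarith) hkX16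
  have hBs : s ≤ B * s := Nat.le_mul_of_pos_left _ (by omega)
  have hk₀s : 4000 * s ≤ k₀ := by
    have h1 : 4000 * B * s = 4000 * (B * s) := by ring
    rw [h1] at hk₀
    omega
  have hk1 : 1 ≤ k := by omega
  have hΦ := hlim X k hXX hkX
  obtain ⟨Φ, hΦd⟩ : ∃ Φ : ℝ, Φ = ((k : ℝ) + 1) * (1 + Real.log (k + 1)) := ⟨_, rfl⟩
  rw [← hΦd] at hΦ
  have hY : 0 < Real.log X := by linarith
  -- the sum over a chain
  have hE : ∀ (K : ℕ) (c : ℕ → ℕ), H72.EN.Chn B k₀ (2 * k) K c →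
      ∑ i ∈ range K, (H72.EN.bA lam X (c i) + bF lam X (c i) (th / 2) δ c₁) ≤
        (ε₁ * (1 + 1 / c₁ ^ 2) + 4 * Φ / Real.log X) * Real.log X := by
    intro K c hc
    have hEY : (ε₁ * (1 + 1 / c₁ ^ 2) + 4 * Φ / Real.log X) * Real.log X =
        ε₁ * Real.log X + ε₁ * Real.log X / c₁ ^ 2 + 4 * Φ := by
      field_simp
    rw [hEY]
    have hlog0 := (log_two_mul k hk1).2.2.2
    have hk0r : (0 : ℝ) ≤ k := Nat.cast_nonneg _
    have hΦl : 1 + Real.log ((k : ℝ) + 1) ≤ Φ := by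
      rw [hΦd]
      nlinarith
    rcases Nat.eq_zero_or_pos K with h0 | h0
    · subst h0
      rw [sum_range_zero]
      have : 0 ≤ Φ := by linarith
      positivity
    · have hK := H72.EN.chn_le Pool.Agent.H62.ENL.pf_KCH hB2 (by omega) hk1 hc
      have hK4 : (K : ℝ) ≤ 4 * Φ := by linarith
      choose αA gA hgA hA using fun i => (Pool.Agent.H38.EL.pf_BAB lam X (c i) hl1).2.2.2.2.1
      obtain ⟨hbA, hbB⟩ := hX₁ X K lam c (le_trans (le_max_left _ _) hX)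
        (fun n _ => hlam.pm n) hbase
        (by
          have h2 := (hc.1 0 h0).1
          have h3 : B₀ * s ≤ B * s := Nat.mul_le_mul_right _ hBB
          have h4 : 4000 * B * s = 4000 * (B * s) := by ring
          rw [h4] at hk₀
          omega) (fun i hi => by
          have h2 := hc.2 i hi
          have h3 : B₀ * c i ≤ B * c i := Nat.mul_le_mul_right _ hBB
          omega) (fun i hi => by
          have h5 : (4 : ℝ) ^ (2 * k) = 16 ^ k := by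
            rw [pow_mul]; norm_num
          refine le_trans ?_ (h5.le.trans hkX16)
          exact pow_le_pow_right₀ (by norm_num) (hc.1 i hi).2)
      have h1 := hbA αA gA (fun i _ n q hq => hgA i n q hq)
      have h2 := bF_le hc₁ hbB
      have h3 : ∑ i ∈ range K, H72.EN.bA lam X (c i) ≤
          ∑ i ∈ range K, H72.EN.bv lam X (c i) (fun n _ => αA i n) (gA i) + K := by
        calc _ ≤ ∑ i ∈ range K, (H72.EN.bv lam X (c i) (fun n _ => αA i n) (gA i) + 1) :=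
              sum_le_sum fun i _ => hA i
          _ = _ := by rw [sum_add_distrib, sum_const, card_range, nsmul_eq_mul, mul_one]
      have h4 : ∑ i ∈ range K, H72.EN.bv lam X (c i) (fun n _ => αA i n) (gA i) ≤
          ε₁ * Real.log X := h1
      rw [sum_add_distrib]
      linarith
  have hcore := core hth ⟨hκ, hc₁, hδ, hCL, hpm, hlev⟩ hCM hCG hmn hgq
    lam X A B k₀ k η _ hX3 hlam hA2 hB2 hη0 hη1 (by omega) (by omega) (by omega) (by omega) hk hE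
  rw [← hDd] at hcore
  have hfin := finish (ε := ε) (D := D) (CG := CG) (CM := CM) (ε₂ := ε₁ * (1 + 1 / c₁ ^ 2))
    (Φ := Φ) (Y := Real.log X) (η := η) (A := A) (B := B) (k₀ := k₀) (k := k) (y := y)
    hε hD hCG hCM hA2 hAε hηε hB2 hy1 hy2 hy3 (by omega) hk1 hY (by
      rw [hε₁d]
      have : (0 : ℝ) < 1 + 1 / c₁ ^ 2 := by positivity
      refine le_of_eq ?_
      field_simp) hΦd (by
      rw [← hGd]
      have h1 := mul_le_mul_of_nonneg_left hΦ hG.le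
      refine h1.trans (le_of_eq ?_)
      field_simp)
  linarith

end Pool.Agent.H87.GS2
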