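import Pool.Agent.H93.GS.Targets
import Pool.Agent.H93.EB.Basic
import Pool.Agent.H72.EN.All
import Pool.Agent.H22.GS.Targets

/-!
# Theorem (G), section 2: the failures of the levels, bounds for the energy, the core
-/

set_option autoImplicit false

namespace Pool.Agent.H87.GS2

open Finset Pool.Agent.H6.N4D Pool.Agent.H93 Pool.Agent.H93.GS

/-! ## the energy is between zero and one -/

lemma J_le_one {th : ℝ} (hth : 0 < th) {lam : ℕ → ℝ} (hl : ∀ n, |lam n| ≤ 1) (N n : ℕ) (g : Ex) :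
    J th lam 1 N n g ≤ 1 := by
  have h1 : 0 ≤ g.nm := sum_nonneg fun i _ => norm_nonneg _
  have h2 : ar 1 N n (fun m => 2 * lam m * (g.f m).re - ‖g.f m‖ ^ 2) ≤ 1 := by
    unfold ar
    rcases Nat.eq_zero_or_pos N with h0 | h0
    · subst h0
      simp
    · have hN : (0 : ℝ) < N := by exact_mod_cast h0
      rw [Nat.cast_one, mul_one, div_le_one hN]
      have h3 : ∀ m ∈ (Ioc n (n + N)).filter (fun m => 1 ∣ m),
          2 * lam m * (g.f m).re - ‖g.f m‖ ^ 2 ≤ 1 := by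
        intro m _
        have h4 : (g.f m).re ^ 2 ≤ ‖g.f m‖ ^ 2 := by
          rw [← sq_abs (g.f m).re]
          exact pow_le_pow_left₀ (abs_nonneg _) (Complex.abs_re_le_norm _) 2
        have h5 : lam m ^ 2 ≤ 1 := by
          rw [← sq_abs]
          exact pow_le_one₀ (abs_nonneg _) (hl m)
        nlinarith [sq_nonneg (lam m - (g.f m).re)]
      refine (sum_le_card_nsmul _ _ _ h3).trans ?_
      rw [nsmul_eq_mul, mul_one]
      have h6 : ((Ioc n (n + N)).filter (fun m => 1 ∣ m)).card ≤ N := by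
        refine (card_filter_le _ _).trans (le_of_eq ?_)
        rw [Nat.card_Ioc]
        omega
      exact_mod_cast h6
  unfold J
  have : 0 ≤ 2 * th * g.nm := by positivity
  linarith

instance : Nonempty Ex := ⟨⟨0, fun _ => 0, fun _ => 0⟩⟩

lemma En_le_one {th : ℝ} (hth : 0 < th) {lam : ℕ → ℝ} (hl : ∀ n, |lam n| ≤ 1) (N n : ℕ) :
    En th lam 1 N n ≤ 1 := ciSup_le fun g => J_le_one hth hl N n g

lemma En_nonneg {th : ℝ} (hth : 0 < th) {lam : ℕ → ℝ} (hl : ∀ n, |lam n| ≤ 1) (N n : ℕ) :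
    0 ≤ En th lam 1 N n := by
  have h1 : J th lam 1 N n ⟨0, fun _ => 0, fun _ => 0⟩ ≤ En th lam 1 N n :=
    le_ciSup (f := fun g => J th lam 1 N n g)
      ⟨1, by rintro _ ⟨g, rfl⟩; exact J_le_one hth hl N n g⟩ _
  refine le_trans (le_of_eq ?_) h1
  simp [J, ar, Ex.f, Ex.nm]

lemma lg_En {th : ℝ} (hth : 0 < th) {lam : ℕ → ℝ} (hl : ∀ n, |lam n| ≤ 1) (X k : ℕ) (hX : 3 ≤ X) :
    0 ≤ EB.lg X (fun n => En th lam 1 (2 ^ k) n) ∧
      EB.lg X (fun n => En th lam 1 (2 ^ k) n) ≤ 2 * Real.log X := by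
  have hX3 : (3 : ℝ) ≤ X := by exact_mod_cast hX
  have hY1 : 1 ≤ Real.log X := by
    rw [Real.le_log_iff_exp_le (by linarith)]
    have := Real.exp_one_lt_d9
    linarith
  refine ⟨EB.lg_nonneg fun n _ => En_nonneg hth hl _ _, ?_⟩
  refine (EB.lg_mono (g := fun _ => 1) fun n _ => En_le_one hth hl _ _).trans ?_
  have := EB.lg_one_le X
  linarith

/-! ## the failures -/

lemma bF_nonneg (lam : ℕ → ℝ) (X m : ℕ) (th' δ c : ℝ) : 0 ≤ bF lam X m th' δ c := by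
  classical
  refine EB.lg_nonneg fun n _ => sum_nonneg fun q _ => ?_
  unfold EB.ind
  split_ifs <;> simp

/-- The failures are bounded by the tests of the second kind. -/
lemma bF_le {lam : ℕ → ℝ} {X K : ℕ} {m : ℕ → ℕ} {th' δ c E : ℝ} (hc : 0 < c)
    (h : ∀ β : ℕ → ℕ → ℕ → ℝ, ∃ α : ℕ → ℕ → ℕ → ℝ,
      (∀ i < K, ∀ n, ∀ q ∈ EB.QQ (m i), ∃ b : ℤ,
        nd (α i n q - β i n q - (b : ℝ) / q) ≤ δ / 2 ^ m i) ∧
      ∑ i ∈ range K, EB.lg X (fun n => ∑ q ∈ EB.QQ (m i), 1 / (q : ℝ) *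
        (EB.ind (th' ≤ ‖EB.crq lam q (2 ^ m i) n (β i n q)‖) *
          EB.zz lam q (2 ^ m i) n (α i n q) (fun _ => 1) ^ 2)) ≤ E) :
    ∑ i ∈ range K, bF lam X (m i) th' δ c ≤ E / c ^ 2 := by
  classical
  have hw : ∀ i n q : ℕ, ∃ β : ℝ, JF lam q (2 ^ m i) n th' δ c →
      (th' ≤ ‖EB.crq lam q (2 ^ m i) n β‖ ∧
      ∀ α : ℝ, (∃ b : ℤ, nd (α - β - (b : ℝ) / q) ≤ δ / (2 ^ m i : ℕ)) →
        c ≤ EB.zz lam q (2 ^ m i) n α (fun _ => 1)) := by
    intro i n q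
    by_cases hJ : JF lam q (2 ^ m i) n th' δ c
    · obtain ⟨β, hβ⟩ := hJ
      exact ⟨β, fun _ => hβ⟩
    · exact ⟨0, fun h => absurd h hJ⟩
  choose β hβ using hw
  obtain ⟨α, hα, hsum⟩ := h β
  rw [le_div_iff₀ (by positivity), sum_mul]
  refine le_trans (sum_le_sum fun i hi => ?_) hsum
  rw [mul_comm]
  unfold bF
  rw [← EB.lg_mul]
  refine EB.lg_mono fun n _ => ?_
  rw [mul_sum]
  refine sum_le_sum fun q hq => ?_
  have hq0 : (0 : ℝ) ≤ 1 / (q : ℝ) := by positivity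
  have hz : 0 ≤ EB.zz lam q (2 ^ m i) n (α i n q) (fun _ => 1) := norm_nonneg _
  rw [mul_left_comm]
  refine mul_le_mul_of_nonneg_left ?_ hq0
  by_cases hJ : JF lam q (2 ^ m i) n th' δ c
  · obtain ⟨h1, h2⟩ := hβ i n q hJ
    obtain ⟨b, hb⟩ := hα i (mem_range.1 hi) n q hq
    have h3 := h2 (α i n q) ⟨b, by push_cast; exact hb⟩
    have e1 : EB.ind (JF lam q (2 ^ m i) n th' δ c) = 1 := if_pos hJ
    have e2 : EB.ind (th' ≤ ‖EB.crq lam q (2 ^ m i) n (β i n q)‖) = 1 := if_pos h1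
    rw [e1, e2, mul_one, one_mul]
    exact pow_le_pow_left₀ hc.le h3 2
  · have e1 : EB.ind (JF lam q (2 ^ m i) n th' δ c) = 0 := if_neg hJ
    rw [e1, mul_zero]
    refine mul_nonneg ?_ (sq_nonneg _)
    unfold EB.ind
    split_ifs <;> simp

end Pool.Agent.H87.GS2
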